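import Pool.Agent.Lib.MP_688fd0_co.LIN.H18.PhaseA

set_option autoImplicit false

namespace Pool.Agent.Lib.MP_688fd0_co.LIN.H18

open Classical
open Pool.Agent.Lib.MP_688fd0_co.LP (IsP Conn Cyc Symm cay)

universe u

theorem startRat (hStart : StartStatement.{u}) (hOpt : OptStatement.{u}) (hMass : MassStatement.{u})
    (V : Type u) [Fintype V] (G : SimpleGraph V) (hG : VT G) (d l' s m : ℕ) (hd : ∀ v, dg G v ≤ d)
    (h1 : 2 * m ≤ bn G s) (h2 : 2 * (2 * l' + 1) * (2 * s * d + 1) ≤ m) :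
    Rat G l' (1 / (4 * (2 * s * d + 1 : ℕ))) := by
  obtain ⟨⟨H, hH⟩, hO⟩ := hOpt V G (2 * l')
  have h3 := hStart V G H hG d (2 * l') s m hd hH h1 h2
  have h4 : (2 * l') * ncyc H ≤ (cov H).card := by
    rw [← hMass V H]
    calc (2 * l') * ncyc H = ∑ S ∈ cycs H, 2 * l' := by
          rw [Finset.sum_const, smul_eq_mul, mul_comm]; rfl
      _ ≤ ∑ S ∈ cycs H, S.card := by
          apply Finset.sum_le_sum
          intro S hS
          unfold cycs at hS
          obtain ⟨v, hv, rfl⟩ := Finset.mem_image.1 hS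
          exact ((hO H hH).1 v hv).1
  refine ⟨H, hH.1, ?_⟩
  have h5 : ((phi l' H : ℤ) : ℝ) = ((cov H).card : ℝ) - l' * ncyc H := by
    unfold phi; push_cast; ring
  rw [h5]
  have h6 : (2 * (l' : ℝ)) * ncyc H ≤ (cov H).card := by exact_mod_cast h4
  have h7 : (Fintype.card V : ℝ) ≤ 2 * ((2 * s * d + 1 : ℕ) : ℝ) * (cov H).card := by exact_mod_cast h3
  have h8 : (0 : ℝ) < ((2 * s * d + 1 : ℕ) : ℝ) := by positivity
  rw [div_mul_eq_mul_div, one_mul, div_le_iff₀ (by positivity)]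
  nlinarith

theorem eight (x : ℝ) (hx : 0 < x) : 2 * (1 / (8 * x)) ≤ 1 / (4 * x) := by
  apply le_of_eq
  field_simp
  norm_num

theorem bn_le_pow {V : Type u} [Fintype V] {G : SimpleGraph V} (hBase : BaseStatement.{u}) (hG : VT G) {d : ℕ}
    (hd : ∀ v, dg G v ≤ d) (r : ℕ) : bn G r ≤ (d + 1) ^ r := by
  obtain ⟨_, _, hB1, hB0, _, _, _⟩ := hBase V G hG
  induction r with
  | zero => simp [hB0]
  | succ r ih =>
    calc bn G (r + 1) ≤ (d + 1) * bn G r := hB1 d hd r
      _ ≤ (d + 1) * (d + 1) ^ r := Nat.mul_le_mul_left _ ih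
      _ = (d + 1) ^ (r + 1) := by ring

/-- the list of a geodesic -/
theorem geo_path {V : Type u} [Fintype V] {G : SimpleGraph V} (hG : VT G) (γ : ℕ → V) (L : ℕ) (h : Geo G γ L) :
    ∃ P, IsP G P ∧ P.length = L + 1 := by
  refine ⟨(List.range (L + 1)).map γ, ⟨?_, ?_, ?_⟩, by simp⟩
  · simp
  · rw [List.isChain_map]
    rw [List.isChain_iff_getElem]
    intro i hi
    simp only [List.length_range] at hi
    simp only [List.getElem_range]
    have h1 := h i (i + 1) (by omega) (by omega)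
    have h2 : G.dist (γ i) (γ (i + 1)) = 1 := by rw [h1]; omega
    exact SimpleGraph.dist_eq_one_iff_adj.1 h2
  · rw [List.nodup_map_iff_inj_on (List.nodup_range)]
    intro i hi j hj hij
    simp only [List.mem_range] at hi hj
    rcases lt_trichotomy i j with h' | h' | h'
    · have h1 := h i j h'.le (by omega)
      rw [hij, SimpleGraph.dist_self] at h1
      omega
    · exact h'
    · have h1 := h j i h'.le (by omega)
      rw [hij, SimpleGraph.dist_self] at h1
      omega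

theorem path_map {Γ : Type u} [Group Γ] {T A : Finset Γ} (hT : Symm T) (hA : Symm A) (hTA : T ⊆ A)
    {P : List ↥(Subgroup.closure (T : Set Γ))} (hP : IsP (lv T) P) : IsP (cay A) (P.map Subtype.val) := by
  obtain ⟨h1, h2, h3⟩ := hP
  refine ⟨fun h => h1 (List.map_eq_nil_iff.1 h), ?_, ?_⟩
  · rw [List.isChain_map]
    refine h2.imp ?_
    intro x y hxy
    have h4 : (cay T).Adj (x : Γ) (y : Γ) := hxy
    rw [Pool.Agent.Lib.MP_688fd0_co.LP.cay_adj hT] at h4
    rw [Pool.Agent.Lib.MP_688fd0_co.LP.cay_adj hA]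
    exact ⟨h4.1, hTA h4.2⟩
  · exact List.Nodup.map Subtype.val_injective h3

theorem chT_subset {Γ : Type u} [Group Γ] {A A0 : Finset Γ} (hA : Symm A) (hA0 : A0 ⊆ A) (a : ℕ → Γ) (k : ℕ)
    (ha : ∀ i < k, a i ∈ A) : chT A0 a k ⊆ A := by
  induction k with
  | zero => exact hA0
  | succ k ih =>
    have h1 := ih (fun i hi => ha i (by omega))
    intro x hx
    simp only [chT, Finset.mem_insert] at hx
    rcases hx with rfl | rfl | hx
    · exact ha k (by omega)
    · exact hA.inv _ (ha k (by omega))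
    · exact h1 hx

theorem main1 (hNext : NextStatement.{u}) (hEnd : EndStatement.{u}) (hStart : StartStatement.{u})
    (hOpt : OptStatement.{u}) (hMass : MassStatement.{u}) (hBase : BaseStatement.{u}) (hGeo : GeoStatement.{u})
    (hLing : LingStatement.{u}) (hLevel : LevelStatement.{u}) (hChain : ChainStatement.{u})
    (hBall4 : Ball4Statement.{u}) (hLift : LiftStatement.{u}) (hGrowth : GrowthStatement.{u})
    (hGrowth2 : Growth2Statement) : Main1Statement.{u} := by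
  obtain ⟨eA, heA⟩ := phaseA hNext hBase hLevel hBall4 hLift 1
  obtain ⟨eB, CB, hB⟩ := phaseB hNext hEnd hOpt hBase hGrowth hGrowth2 9
  obtain ⟨e2, he2⟩ := poly_le_two_pow (12 * 19) 2
  obtain ⟨e3, he3⟩ := poly_le_two_pow (8 * 19) 4
  set e0 := max (max eA eB) (max (max e2 e3) 4) with he0
  have h0A : eA ≤ e0 := (le_max_left _ _).trans (le_max_left _ _)
  have h0B : eB ≤ e0 := (le_max_right _ _).trans (le_max_left _ _)
  have h02 : e2 ≤ e0 := ((le_max_left _ _).trans (le_max_left _ _)).trans (le_max_right _ _)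
  have h03 : e3 ≤ e0 := ((le_max_right _ _).trans (le_max_left _ _)).trans (le_max_right _ _)
  have h04 : 4 ≤ e0 := (le_max_right _ _).trans (le_max_right _ _)
  clear_value e0
  -- constants for case II
  obtain ⟨i0, hi0⟩ := exists_pow_31_32 (4 * (2 * 2 ^ e0 + 1) * (2 * (1 + 8 * e0) + 1))
  set d0 := 1 + 8 * e0 with hd0
  set s0 := (31 ^ i0 - 1) / 2 with hs0
  -- the constants
  set c1 : ℝ := 1 / (8 * ((2 * e0 * d0 + 1 : ℕ) : ℝ)) with hc1
  set c2 : ℝ := 1 / (8 * ((2 * s0 * d0 + 1 : ℕ) : ℝ)) with hc2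
  set N1 : ℕ := 100000 * (d0 + 1) ^ (30 * 31 ^ i0) with hN1
  have hc1pos : 0 < c1 := by positivity
  have hc2pos : 0 < c2 := by positivity
  have hN1pos : 0 < N1 := by positivity
  have hbound : ∃ c : ℝ, 0 < c ∧ c ≤ c1 / (CB + 1) ∧ c ≤ c2 / (CB + 1) ∧ c ≤ 1 / N1 := by
    refine ⟨min (c1 / (CB + 1)) (min (c2 / (CB + 1)) (1 / N1)), ?_, min_le_left _ _,
      (min_le_right _ _).trans (min_le_left _ _), (min_le_right _ _).trans (min_le_right _ _)⟩
    have : (0 : ℝ) < N1 := by exact_mod_cast hN1pos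
    positivity
  obtain ⟨c, hc, hcc1, hcc2, hcN⟩ := hbound
  refine ⟨c, hc, ?_⟩
  intro Γ _ _ A hA hAtop
  have hone : Symm ({1} : Finset Γ) := ⟨by simp, by simp⟩
  obtain ⟨k, a, haA, haN, hatop⟩ := hChain Γ A {1} (by simpa using hA.one) hAtop
  obtain ⟨hsyk, hVTk, hdegk⟩ := hLevel Γ {1} a hone k
  have hsub : chT {1} a k ⊆ A := chT_subset hA (by simpa using hA.one) a k haA
  have hcard : Fintype.card ↥(Subgroup.closure (chT {1} a k : Set Γ)) = Fintype.card Γ := by
    rw [← Nat.card_eq_fintype_card, ← Nat.card_eq_fintype_card, hatop, Subgroup.card_top]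
  have hnR : (0 : ℝ) < Fintype.card Γ := by
    have : 0 < Fintype.card Γ := Fintype.card_pos
    exact_mod_cast this
  have hfin : ∀ c' : ℝ, 0 < c' → c ≤ c' / (CB + 1) → ∀ P : List ↥(Subgroup.closure (chT {1} a k : Set Γ)),
      IsP (lv (chT {1} a k)) P →
      c' * (Fintype.card ↥(Subgroup.closure (chT {1} a k : Set Γ)) : ℝ) ≤ CB * P.length →
      ∃ P : List Γ, IsP (cay A) P ∧ c * (Fintype.card Γ : ℝ) ≤ P.length := by
    intro c' hc' hcc' P hP hPl
    refine ⟨_, path_map hsyk hA hsub hP, ?_⟩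
    rw [List.length_map]
    rw [hcard] at hPl
    have h1 : c * (Fintype.card Γ : ℝ) ≤ c' / (CB + 1) * (Fintype.card Γ : ℝ) :=
      mul_le_mul_of_nonneg_right hcc' hnR.le
    refine h1.trans ?_
    rw [div_mul_eq_mul_div, div_le_iff₀ (by positivity)]
    have h2 : (0 : ℝ) ≤ P.length := by positivity
    have h3 : (P.length : ℝ) * (CB + 1) = CB * P.length + P.length := by ring
    rw [h3]
    linarith
  have hdk : ∀ v, dg (lv (chT {1} a k)) v ≤ 1 + 2 * k := by
    intro v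
    have := hdegk v
    simpa using this
  obtain ⟨hBc, hBi, hB1, hB0, hBm, hBD, D, hD⟩ := hBase _ (lv (chT {1} a k)) hVTk
  have hlossc : ∀ (c' : ℝ) (e : ℕ), 0 < c' → 4 ≤ e → c' * (1 + 2 / (e : ℝ)) ≤ 2 * c' := by
    intro c' e hc' he
    have he' : (4 : ℝ) ≤ e := by exact_mod_cast he
    have : 2 / (e : ℝ) ≤ 1 := by
      rw [div_le_one (by linarith)]; linarith
    nlinarith
  by_cases hk : 4 * e0 ≤ k
  · -- case I
    have hball := hBall4 Γ {1} a k hone haN e0 hk (4 * e0) le_rfl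
    obtain ⟨hsy, hVT, hdeg⟩ := hLevel Γ {1} a hone (4 * e0)
    have hd : ∀ v, dg (lv (chT {1} a (4 * e0))) v ≤ d0 := by
      intro v
      refine (hdeg v).trans ?_
      simp only [Finset.card_singleton]
      omega
    have hnum : 2 * (2 * (2 * 2 ^ e0 + 1) * (2 * e0 * d0 + 1)) ≤ 4 ^ e0 := by
      have h1 := he2 e0 h02
      have h2 : 2 * e0 * d0 + 1 ≤ 19 * (e0 + 1) ^ 2 := by rw [hd0]; nlinarith
      have h3 : 2 * 2 ^ e0 + 1 ≤ 3 * 2 ^ e0 := by
        have : 1 ≤ 2 ^ e0 := Nat.one_le_two_pow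
        omega
      calc 2 * (2 * (2 * 2 ^ e0 + 1) * (2 * e0 * d0 + 1))
          ≤ 2 * (2 * (3 * 2 ^ e0) * (19 * (e0 + 1) ^ 2)) := by gcongr
        _ = 2 ^ e0 * (12 * 19 * (e0 + 1) ^ 2) := by ring
        _ ≤ 2 ^ e0 * 2 ^ e0 := Nat.mul_le_mul_left _ h1
        _ = 4 ^ e0 := by rw [← mul_pow]
                         norm_num
    have hR := startRat hStart hOpt hMass _ (lv (chT {1} a (4 * e0))) hVT d0 (2 ^ e0) e0 _ hd (hnum.trans hball)
      le_rfl
    have hR2 : Rat (lv (chT {1} a (4 * e0))) (2 ^ e0) (c1 * (1 + 2 / (e0 : ℝ))) := by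
      refine rat_mono hR ((hlossc c1 e0 hc1pos h04).trans ?_)
      exact eight _ (by positivity)
    have hce : ∀ e, e0 ≤ e → (e : ℝ) ^ 2 ≤ c1 * 2 ^ e := by
      intro e he
      have h1 := he3 e (h03.trans he)
      have h2 : 2 * e0 * d0 + 1 ≤ 19 * (e + 1) ^ 2 := by rw [hd0]; nlinarith
      have h3 : e ^ 2 * (8 * (2 * e0 * d0 + 1)) ≤ 2 ^ e := by
        refine le_trans ?_ h1
        calc e ^ 2 * (8 * (2 * e0 * d0 + 1)) ≤ (e + 1) ^ 2 * (8 * (19 * (e + 1) ^ 2)) := by
              gcongr; omega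
          _ = 8 * 19 * (e + 1) ^ 4 := by ring
      have h4 : (e : ℝ) ^ 2 * (8 * ((2 * e0 * d0 + 1 : ℕ) : ℝ)) ≤ 2 ^ e := by exact_mod_cast h3
      rw [hc1, div_mul_eq_mul_div, one_mul, le_div_iff₀ (by positivity)]
      exact h4
    have hR3 := heA Γ {1} a k hone (by simp) haN e0 h0A hk c1 hc1pos hce hR2
    obtain ⟨P, hP, hPl⟩ := hB _ (lv (chT {1} a k)) hVTk D hD (1 + 2 * k) hdk (k / 4) (by omega) (by omega) c1 hc1pos hR3
    exact hfin c1 hc1pos hcc1 P hP hPl
  · -- case II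
    push Not at hk
    have hd : ∀ v, dg (lv (chT {1} a k)) v ≤ d0 := fun v => le_trans (hdk v) (by omega : 1 + 2 * k ≤ d0)
    have hne : Nonempty ↥(Subgroup.closure (chT {1} a k : Set Γ)) := ⟨1⟩
    by_cases hDs : D < 30 * 31 ^ i0
    · -- bounded size
      have h1 : Fintype.card Γ ≤ N1 := by
        rw [← hcard, ← hBD D hD]
        refine (bn_le_pow hBase hVTk hd D).trans ?_
        calc (d0 + 1) ^ D ≤ (d0 + 1) ^ (30 * 31 ^ i0) := Nat.pow_le_pow_right (by omega) hDs.le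
          _ ≤ N1 := by rw [hN1]; omega
      refine ⟨[1], ⟨by simp, by simp, by simp⟩, ?_⟩
      have h2 : (Fintype.card Γ : ℝ) ≤ N1 := by exact_mod_cast h1
      have h3 : (0 : ℝ) < N1 := by exact_mod_cast hN1pos
      simp only [List.length_singleton, Nat.cast_one]
      calc c * (Fintype.card Γ : ℝ) ≤ 1 / N1 * N1 := by gcongr
        _ = 1 := by field_simp
    push Not at hDs
    by_cases hlin : ∃ i < i0, bn (lv (chT {1} a k)) ((31 ^ (i + 1) - 1) / 2) <
        32 * bn (lv (chT {1} a k)) ((31 ^ i - 1) / 2)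
    · obtain ⟨i, hi, hi2⟩ := hlin
      rw [succ_scale] at hi2
      have hle : 31 ^ i ≤ 31 ^ i0 := Nat.pow_le_pow_right (by norm_num) hi.le
      have h1 := hLing _ (lv (chT {1} a k)) hVTk D hD ((31 ^ i - 1) / 2) (31 ^ i) (odd_pow i) hi2 (by omega)
      have h2 : bn (lv (chT {1} a k)) ((31 ^ i - 1) / 2) ≤ (d0 + 1) ^ (30 * 31 ^ i0) := by
        refine (bn_le_pow hBase hVTk hd _).trans ?_
        apply Nat.pow_le_pow_right (by omega)
        omega
      have h3 : Fintype.card Γ ≤ D * N1 := by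
        rw [← hcard]
        calc Fintype.card ↥(Subgroup.closure (chT {1} a k : Set Γ))
            ≤ 31 ^ i * Fintype.card ↥(Subgroup.closure (chT {1} a k : Set Γ)) :=
              Nat.le_mul_of_pos_left _ (by positivity)
          _ ≤ 100000 * D * bn (lv (chT {1} a k)) ((31 ^ i - 1) / 2) := h1
          _ ≤ 100000 * D * (d0 + 1) ^ (30 * 31 ^ i0) := Nat.mul_le_mul_left _ h2
          _ = D * N1 := by rw [hN1]; ring
      obtain ⟨x, y, hxy⟩ := hD.2
      obtain ⟨γ, _, _, hγ⟩ := (hGeo _ (lv (chT {1} a k)) hVTk D hD).1 x y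
      rw [hxy] at hγ
      obtain ⟨P, hP, hPl⟩ := geo_path hVTk γ D hγ
      refine ⟨_, path_map hsyk hA hsub hP, ?_⟩
      rw [List.length_map, hPl]
      have h4 : (Fintype.card Γ : ℝ) ≤ D * N1 := by exact_mod_cast h3
      have h5 : (0 : ℝ) < N1 := by exact_mod_cast hN1pos
      push_cast
      calc c * (Fintype.card Γ : ℝ) ≤ 1 / N1 * (D * N1) := by gcongr
        _ = D := by field_simp
        _ ≤ D + 1 := by linarith
    · push Not at hlin
      have hpow : ∀ j, j ≤ i0 → 32 ^ j ≤ bn (lv (chT {1} a k)) ((31 ^ j - 1) / 2) := by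
        intro j
        induction j with
        | zero => intro _; simp [hB0]
        | succ j ihj =>
          intro hj
          have h1 := ihj (by omega)
          have h2 := hlin j (by omega)
          calc 32 ^ (j + 1) = 32 * 32 ^ j := by ring
            _ ≤ 32 * bn (lv (chT {1} a k)) ((31 ^ j - 1) / 2) := by omega
            _ ≤ _ := h2
      have h1 := hpow i0 le_rfl
      have hnum : 2 * (2 * (2 * 2 ^ e0 + 1) * (2 * s0 * d0 + 1)) ≤ bn (lv (chT {1} a k)) s0 := by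
        refine le_trans ?_ h1
        refine le_trans ?_ hi0
        have h2 : 2 * s0 * d0 + 1 ≤ (2 * d0 + 1) * 31 ^ i0 := by
          have h3 := odd_pow i0
          have h4 : 2 * s0 + 1 = 31 ^ i0 := by rw [hs0]; omega
          nlinarith
        calc 2 * (2 * (2 * 2 ^ e0 + 1) * (2 * s0 * d0 + 1))
            ≤ 2 * (2 * (2 * 2 ^ e0 + 1) * ((2 * d0 + 1) * 31 ^ i0)) := by gcongr
          _ = 4 * (2 * 2 ^ e0 + 1) * (2 * d0 + 1) * 31 ^ i0 := by ring
      have hR := startRat hStart hOpt hMass _ (lv (chT {1} a k)) hVTk d0 (2 ^ e0) s0 _ hd hnum le_rfl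
      have hR2 : Rat (lv (chT {1} a k)) (2 ^ e0) (c2 * (1 + 2 / (e0 : ℝ))) := by
        refine rat_mono hR ((hlossc c2 e0 hc2pos h04).trans ?_)
        exact eight _ (by positivity)
      obtain ⟨P, hP, hPl⟩ := hB _ (lv (chT {1} a k)) hVTk D hD d0 hd e0 h0B (by omega) c2 hc2pos hR2
      exact hfin c2 hc2pos hcc2 P hP hPl

end Pool.Agent.Lib.MP_688fd0_co.LIN.H18
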