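import Pool.Agent.Lib.MP_688fd0_co.LIN.H98.Ball4

/-!
Greedy chains: at every level the new generator has maximal word length over the previous level.
-/

set_option autoImplicit false

namespace Pool.Agent.Lib.MP_688fd0_co.LIN.H18

open Classical
open Pool.Agent.Lib.MP_688fd0_co.LP (IsP Conn Cyc Symm cay cay_adj)
open Pool.Agent.Lib.MP_688fd0_co.LIN.H98 (PS PS_sub closure_mono mem_closure_chT mem_chT chT_symm)

universe u

section
variable {Γ : Type*} [Group Γ]

/-- products of at most `r` elements of `T` -/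
def WB (T : Finset Γ) (r : ℕ) (y : Γ) : Prop := ∃ l : List Γ, l.length ≤ r ∧ (∀ x ∈ l, x ∈ T) ∧ l.prod = y

theorem wb_mono {T T' : Finset Γ} (h : T ⊆ T') {r r' : ℕ} (hr : r ≤ r') {y : Γ} (hy : WB T r y) : WB T' r' y := by
  obtain ⟨l, h1, h2, h3⟩ := hy
  exact ⟨l, h1.trans hr, fun x hx => h (h2 x hx), h3⟩

theorem wb_mul {T : Finset Γ} {r s : ℕ} {x y : Γ} (hx : WB T r x) (hy : WB T s y) : WB T (r + s) (x * y) := by
  obtain ⟨l, h1, h2, h3⟩ := hx
  obtain ⟨l', h1', h2', h3'⟩ := hy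
  refine ⟨l ++ l', by rw [List.length_append]; omega, ?_, by rw [List.prod_append, h3, h3']⟩
  intro z hz
  rcases List.mem_append.1 hz with hz | hz
  · exact h2 z hz
  · exact h2' z hz

theorem wb_inv {T : Finset Γ} (hT : Symm T) {r : ℕ} {x : Γ} (hx : WB T r x) : WB T r x⁻¹ := by
  obtain ⟨l, h1, h2, h3⟩ := hx
  refine ⟨(l.map (fun z => z⁻¹)).reverse, by simpa using h1, ?_, ?_⟩
  · intro z hz
    rw [List.mem_reverse, List.mem_map] at hz
    obtain ⟨y, hy, rfl⟩ := hz
    exact hT.inv _ (h2 y hy)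
  · rw [← h3, List.prod_inv_reverse]

theorem wb_one (T : Finset Γ) (r : ℕ) : WB T r (1 : Γ) := ⟨[], by simp, by simp, by simp⟩

theorem wb_mem {T : Finset Γ} {x : Γ} (hx : x ∈ T) : WB T 1 x := ⟨[x], by simp, by simpa using hx, by simp⟩

theorem wb_closure {T : Finset Γ} {r : ℕ} {x : Γ} (hx : WB T r x) : x ∈ Subgroup.closure (T : Set Γ) := by
  obtain ⟨l, _, h2, h3⟩ := hx
  rw [← h3]
  apply Subgroup.list_prod_mem
  intro y hy
  exact Subgroup.subset_closure (by exact_mod_cast h2 y hy)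

theorem wb_pow {T A : Finset Γ} {s : ℕ} (h : ∀ b ∈ A, WB T s b) {r : ℕ} {x : Γ} (hx : WB A r x) :
    WB T (s * r) x := by
  obtain ⟨l, h1, h2, h3⟩ := hx
  rw [← h3]
  clear h3
  induction l generalizing r with
  | nil => simpa using wb_one T _
  | cons a l ih =>
    rw [List.prod_cons]
    rw [List.length_cons] at h1
    have h4 := ih (r := r - 1) (by omega) (fun y hy => h2 y (List.mem_cons_of_mem _ hy))
    have h5 := h a (h2 a List.mem_cons_self)
    refine wb_mono subset_rfl ?_ (wb_mul h5 h4)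
    obtain ⟨r', rfl⟩ : ∃ r', r = r' + 1 := ⟨r - 1, by omega⟩
    rw [Nat.add_sub_cancel]
    exact le_of_eq (by ring)

/-- an element of `A` of maximal word length over `T` -/
theorem greedy_elt (T A : Finset Γ) (hA : A.Nonempty) : ∃ a ∈ A, ∀ r, WB T r a → ∀ b ∈ A, WB T r b := by
  by_contra hno
  push Not at hno
  obtain ⟨a, ha, hmax⟩ := Finset.exists_max_image A
    (fun b => if h : ∃ r, WB T r b then Nat.find h else 0) hA
  obtain ⟨r, hr, b, hb, hnb⟩ := hno a ha
  have h1 := hmax b hb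
  obtain ⟨rb, hrb, _⟩ := hno b hb
  have hexa : ∃ r, WB T r a := ⟨r, hr⟩
  have hexb : ∃ r, WB T r b := ⟨rb, hrb⟩
  simp only [dif_pos hexa, dif_pos hexb] at h1
  have h2 : Nat.find hexa ≤ r := Nat.find_min' hexa hr
  exact hnb (wb_mono subset_rfl (h1.trans h2) (Nat.find_spec hexb))

theorem greedy_chain (A A0 : Finset Γ) (hA : A.Nonempty) : ∃ a : ℕ → Γ, ∀ j, a j ∈ A ∧
    ∀ r, WB (chT A0 a j) r (a j) → ∀ b ∈ A, WB (chT A0 a j) r b := by
  choose f hf1 hf2 using fun T : Finset Γ => greedy_elt T A hA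
  let S : ℕ → Finset Γ := fun n => Nat.rec A0 (fun _ T => insert (f T) (insert (f T)⁻¹ T)) n
  have hS : ∀ j, S (j + 1) = insert (f (S j)) (insert (f (S j))⁻¹ (S j)) := fun j => rfl
  have h : ∀ j, chT A0 (fun j => f (S j)) j = S j := by
    intro j
    induction j with
    | zero => rfl
    | succ j ih => rw [hS, chT, ih]
  refine ⟨fun j => f (S j), fun j => ⟨hf1 _, ?_⟩⟩
  rw [h j]
  exact hf2 _

theorem PS_wb (A0 : Finset Γ) (a : ℕ → Γ) (e : ℕ) : ∀ y ∈ PS a e, WB (chT A0 a (4 * e)) e y := by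
  induction e with
  | zero =>
    intro y hy
    simp only [PS, Finset.mem_singleton] at hy
    rw [hy]; exact wb_one _ _
  | succ e ih =>
    intro y hy
    simp only [PS, Finset.mem_image, Finset.mem_product, Finset.mem_range, Prod.exists] at hy
    obtain ⟨z, c, ⟨hz, hc⟩, rfl⟩ := hy
    exact wb_mul (wb_mono (H98.chT_mono A0 a (by omega)) le_rfl (ih z hz)) (wb_mem (mem_chT A0 a (by omega)))

theorem PS_card' {A0 : Finset Γ} (hA0 : Symm A0) (a : ℕ → Γ) (E : ℕ)
    (h : ∀ i < 4 * E, ¬ WB (chT A0 a i) (2 * E - 1) (a i)) (e : ℕ) (he : e ≤ E) :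
    (PS a e).card = 4 ^ e := by
  induction e with
  | zero => simp [PS]
  | succ e ih =>
    have ih' := ih (by omega)
    simp only [PS]
    rw [Finset.card_image_of_injOn, Finset.card_product, ih', Finset.card_range, pow_succ]
    have hlt : ∀ z ∈ PS a e, ∀ z' ∈ PS a e, ∀ c c' : ℕ, c < c' → c' < 4 →
        z * a (4 * e + c) ≠ z' * a (4 * e + c') := by
      intro z hz z' hz' c c' hcc hc' heq
      apply h (4 * e + c') (by omega)
      have h1 : a (4 * e + c') = z'⁻¹ * (z * a (4 * e + c)) := by rw [heq]; group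
      rw [h1]
      have h2 := wb_mono (H98.chT_mono A0 a (show 4 * e ≤ 4 * e + c' by omega)) le_rfl (PS_wb A0 a e z' hz')
      have h3 := wb_mono (H98.chT_mono A0 a (show 4 * e ≤ 4 * e + c' by omega)) le_rfl (PS_wb A0 a e z hz)
      have h4 : WB (chT A0 a (4 * e + c')) 1 (a (4 * e + c)) := wb_mem (mem_chT A0 a (by omega))
      refine wb_mono subset_rfl ?_ (wb_mul (wb_inv (chT_symm hA0 a _) h2) (wb_mul h3 h4))
      omega
    rintro ⟨z, c⟩ hp ⟨z', c'⟩ hp' heq
    rw [Finset.mem_coe, Finset.mem_product, Finset.mem_range] at hp hp'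
    simp only at hp hp' heq
    rcases lt_trichotomy c c' with hc | hc | hc
    · exact absurd heq (hlt z hp.1 z' hp'.1 c c' hc hp'.2)
    · subst hc
      rw [mul_right_cancel heq]
    · exact absurd heq.symm (hlt z' hp'.1 z hp.1 c' c hc hp.2)

theorem wb_walk {T : Finset Γ} (hT : Symm T) (l : List Γ) (hl : ∀ x ∈ l, x ∈ T)
    (x : ↥(Subgroup.closure (T : Set Γ))) (y : ↥(Subgroup.closure (T : Set Γ))) (h : (x : Γ) * l.prod = y) :
    ∃ p : (lv T).Walk x y, p.length ≤ l.length := by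
  induction l generalizing x with
  | nil =>
    have : x = y := Subtype.ext (by simpa using h)
    subst this
    exact ⟨SimpleGraph.Walk.nil, by simp⟩
  | cons a l ih =>
    have ha : a ∈ T := hl a List.mem_cons_self
    have ha' : a ∈ Subgroup.closure (T : Set Γ) := Subgroup.subset_closure (by exact_mod_cast ha)
    by_cases h1 : a = 1
    · subst h1
      obtain ⟨p, hp⟩ := ih (fun z hz => hl z (List.mem_cons_of_mem _ hz)) x (by
        rw [← h, List.prod_cons, one_mul])
      exact ⟨p, by rw [List.length_cons]; omega⟩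
    · obtain ⟨p, hp⟩ := ih (fun z hz => hl z (List.mem_cons_of_mem _ hz)) (x * ⟨a, ha'⟩) (by
        rw [← h, List.prod_cons, Subgroup.coe_mul, mul_assoc])
      have hadj : (lv T).Adj x (x * ⟨a, ha'⟩) := by
        change (cay T).Adj (x : Γ) ((x * ⟨a, ha'⟩ : ↥(Subgroup.closure (T : Set Γ))) : Γ)
        rw [cay_adj hT, Subgroup.coe_mul]
        refine ⟨?_, by simpa using ha⟩
        intro h3
        apply h1
        have : (x : Γ) * 1 = x * a := by simpa using h3
        exact (mul_left_cancel this).symm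
      refine ⟨SimpleGraph.Walk.cons hadj p, ?_⟩
      rw [SimpleGraph.Walk.length_cons, List.length_cons]
      omega

theorem dist_wb {T : Finset Γ} (hT : Symm T) {r : ℕ} (x y : ↥(Subgroup.closure (T : Set Γ)))
    (h : WB T r ((x : Γ)⁻¹ * y)) : (lv T).dist x y ≤ r := by
  obtain ⟨l, h1, h2, h3⟩ := h
  obtain ⟨p, hp⟩ := wb_walk hT l h2 x y (by rw [h3]; group)
  exact (SimpleGraph.dist_le p).trans (hp.trans h1)

theorem walk_wb {A : Finset Γ} (hA : Symm A) {x y : Γ} (p : (cay A).Walk x y) : WB A p.length (x⁻¹ * y) := by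
  induction p with
  | nil => simpa using wb_one A _
  | @cons u v w h p ih =>
    rw [cay_adj hA] at h
    have h1 : u⁻¹ * w = (u⁻¹ * v) * (v⁻¹ * w) := by group
    rw [h1, SimpleGraph.Walk.length_cons, Nat.add_comm]
    exact wb_mul (wb_mem h.2) ih

/-- BALL4 for greedy chains -/
theorem ball4g [Fintype Γ] {A0 : Finset Γ} (hA0 : Symm A0) (a : ℕ → Γ) (e : ℕ)
    (h : ∀ i < 4 * e, ¬ WB (chT A0 a i) (2 * e - 1) (a i)) :
    4 ^ e ≤ bn (lv (chT A0 a (4 * e))) e := by
  rw [← PS_card' hA0 a e h e le_rfl]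
  have hmem : ∀ y ∈ PS a e, y ∈ Subgroup.closure (chT A0 a (4 * e) : Set Γ) := fun y hy =>
    wb_closure (PS_wb A0 a e y hy)
  have h1 : (PS a e).card ≤ (bl (lv (chT A0 a (4 * e))) 1 e).card := by
    refine Finset.card_le_card_of_injOn
      (fun y => if hy : y ∈ Subgroup.closure (chT A0 a (4 * e) : Set Γ) then ⟨y, hy⟩ else 1) ?_ ?_
    · intro y hy
      have hy1 : y ∈ PS a e := by exact_mod_cast hy
      have hy2 := hmem y hy1
      simp only [dif_pos hy2]
      rw [Finset.mem_coe]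
      simp only [bl, Finset.mem_filter, Finset.mem_univ, true_and]
      apply dist_wb (chT_symm hA0 a _)
      simpa using PS_wb A0 a e y hy1
    · intro y hy z hz hyz
      have hy2 := hmem y (by exact_mod_cast hy)
      have hz2 := hmem z (by exact_mod_cast hz)
      simp only [dif_pos hy2, dif_pos hz2, Subtype.mk.injEq] at hyz
      exact hyz
  refine le_trans h1 ?_
  unfold bn
  exact Finset.le_sup (f := fun x => (bl (lv (chT A0 a (4 * e))) x e).card) (Finset.mem_univ _)

/-- small displacement at some level: the level is everything, with small diameter -/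
theorem diam_g [Fintype Γ] {A A0 : Finset Γ} (hA : Symm A) (hAtop : Subgroup.closure (A : Set Γ) = ⊤)
    (hA0 : Symm A0) (a : ℕ → Γ) (ha : ∀ j, a j ∈ A ∧ ∀ r, WB (chT A0 a j) r (a j) → ∀ b ∈ A, WB (chT A0 a j) r b)
    (D : ℕ) (hD : Diam (cay A) D) (hconn : (cay A).Connected) (i k s : ℕ) (hik : i ≤ k)
    (hs : WB (chT A0 a i) s (a i)) :
    Subgroup.closure (chT A0 a k : Set Γ) = ⊤ ∧ ∀ x y, (lv (chT A0 a k)).dist x y ≤ s * D := by
  have h1 := (ha i).2 s hs
  have h2 : ∀ b ∈ A, WB (chT A0 a k) s b := fun b hb => wb_mono (H98.chT_mono A0 a hik) le_rfl (h1 b hb)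
  refine ⟨?_, ?_⟩
  · rw [eq_top_iff, ← hAtop, Subgroup.closure_le]
    intro b hb
    exact wb_closure (h2 b (by exact_mod_cast hb))
  · intro x y
    apply dist_wb (chT_symm hA0 a _)
    obtain ⟨p, hp⟩ := hconn.exists_walk_length_eq_dist (x : Γ) (y : Γ)
    have h3 := walk_wb hA p
    rw [hp] at h3
    exact wb_pow h2 (wb_mono subset_rfl (hD.1 _ _) h3)

end

end Pool.Agent.Lib.MP_688fd0_co.LIN.H18
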