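import Pool.Agent.Lib.MP_688fd0_co.LIN.H18.Main1c
import Pool.Agent.Lib.MP_688fd0_co.LIN.H18.Greedy
import Pool.Agent.Lib.MP_688fd0_co.LIN.H15.Opt

/-!
Theorem 2: the two kinds of steps, and the start.
-/

set_option autoImplicit false

namespace Pool.Agent.Lib.MP_688fd0_co.LIN.H18

open Classical
open Pool.Agent.Lib.MP_688fd0_co.LP (IsP Conn Cyc Symm cay)

universe u

/-- a step in a vertex-transitive graph with a large ball of radius `e` -/
theorem step_ball (hNext : NextStatement.{u}) (hBase : BaseStatement.{u}) (m : ℕ) :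
    ∃ eA : ℕ, ∀ (V : Type u) [Fintype V] (G : SimpleGraph V), VT G → ∀ e, eA ≤ e →
      (∀ v, dg G v ≤ m + 8 * e) → 4 ^ e ≤ bn G e → ∀ c : ℝ, 0 < c →
      (e : ℝ) ^ 2 ≤ c * 2 ^ e → Rat G (2 ^ e) (c * (1 + 2 / (e : ℝ))) →
      Rat G (2 ^ (e + 1)) (c * (1 + 2 / ((e + 1 : ℕ) : ℝ))) := by
  obtain ⟨eA, heA⟩ := poly_le_two_pow (2 ^ 55 * (m + 8) ^ 4) 11
  refine ⟨max 4 eA, ?_⟩
  intro V _ G hVT e he hd hball c hc hce hR
  have he4 : 4 ≤ e := (le_max_left _ _).trans he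
  have heA1 : eA ≤ e := (le_max_right _ _).trans he
  obtain ⟨_, _, hB1, hB0, hBm, hBD, D, hD⟩ := hBase _ G hVT
  -- choose r
  have h2e : 2 ^ e ≤ 4 ^ e := Nat.pow_le_pow_left (by norm_num) e
  have hex : ∃ s, 2 ^ e ≤ bn G s := ⟨e, h2e.trans hball⟩
  have hs := Nat.find_spec hex
  have hsmin := fun s (h : s < Nat.find hex) => Nat.find_min hex h
  have hs0 : Nat.find hex ≠ 0 := by
    intro h0
    rw [h0, hB0] at hs
    have : 1 < 2 ^ e := Nat.one_lt_two_pow (by omega)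
    omega
  have hse : Nat.find hex ≤ e := Nat.find_min' hex (h2e.trans hball)
  obtain ⟨r, hr⟩ := Nat.exists_eq_succ_of_ne_zero hs0
  have hr1 : bn G r < 2 ^ e := by
    have := hsmin r (by omega)
    omega
  rw [hr] at hs
  have hr2 : 2 ^ e ≤ (m + 8 * e + 1) * bn G r := hs.trans (hB1 _ hd r)
  have hnum : 2 ^ 55 * (m + 8 * e + 1) ^ 3 * (e ^ 2) ^ 3 * (r + 1) ≤ bn G r := by
    have h1 := heA e heA1
    have h2 : (m + 8 * e + 1) * (2 ^ 55 * (m + 8 * e + 1) ^ 3 * (e ^ 2) ^ 3 * (r + 1)) ≤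
        (m + 8 * e + 1) * bn G r := by
      refine le_trans ?_ hr2
      refine le_trans ?_ h1
      have h3 : m + 8 * e + 1 ≤ (m + 8) * (e + 1) := by nlinarith
      have h4 : r + 1 ≤ e + 1 := by omega
      calc (m + 8 * e + 1) * (2 ^ 55 * (m + 8 * e + 1) ^ 3 * (e ^ 2) ^ 3 * (r + 1))
          = 2 ^ 55 * (m + 8 * e + 1) ^ 4 * e ^ 6 * (r + 1) := by ring
        _ ≤ 2 ^ 55 * ((m + 8) * (e + 1)) ^ 4 * (e + 1) ^ 6 * (e + 1) := by
            gcongr
            omega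
        _ = 2 ^ 55 * (m + 8) ^ 4 * (e + 1) ^ 11 := by ring
    exact Nat.le_of_mul_le_mul_left h2 (by omega)
  have hx : 0 < c * (1 + 2 / (e : ℝ)) := by positivity
  have hxc : c ≤ c * (1 + 2 / (e : ℝ)) := by
    have : (0 : ℝ) ≤ 2 / (e : ℝ) := by positivity
    nlinarith
  have hK : 2 ≤ e ^ 2 := by nlinarith
  obtain ⟨_, hN⟩ := hNext _ G hVT (m + 8 * e) (2 ^ e) (e ^ 2) r hd hK hr1 hnum _ hx hR
  have hcardN : 4 ^ e ≤ Fintype.card V := by
    refine hball.trans ?_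
    unfold bn
    apply Finset.sup_le
    intro x _
    exact Finset.card_le_univ _
  have hcardR : (4 : ℝ) ^ e ≤ Fintype.card V := by
    exact_mod_cast hcardN
  have h5 : ((e ^ 2 : ℕ) : ℝ) * ((2 ^ e : ℕ) : ℝ) ≤ c * (1 + 2 / (e : ℝ)) * (Fintype.card V : ℝ) := by
    push_cast
    have h6 : (4 : ℝ) ^ e = 2 ^ e * 2 ^ e := by
      rw [← mul_pow]; norm_num
    calc (e : ℝ) ^ 2 * 2 ^ e ≤ c * 2 ^ e * 2 ^ e := by gcongr
      _ = c * 4 ^ e := by rw [h6]; ring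
      _ ≤ c * (1 + 2 / (e : ℝ)) * 4 ^ e := by gcongr
      _ ≤ _ := by gcongr
  have h6 := hN h5
  have h7 := loss_step e he4 c hc.le
  have h8 : Rat G (2 * 2 ^ e) (c * (1 + 2 / ((e + 1 : ℕ) : ℝ))) := rat_mono h6 h7
  have h10 : 2 ^ (e + 1) = 2 * 2 ^ e := by ring
  rw [h10]; exact h8

/-- a step in a vertex-transitive graph of small diameter -/
theorem step_diam (hNext : NextStatement.{u}) (hGrowth : GrowthStatement.{u}) (hLing : LingStatement.{u})
    (m : ℕ) :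
    ∃ eA : ℕ, ∀ (V : Type u) [Fintype V] (G : SimpleGraph V), VT G → ∀ D, Diam G D → ∀ e, eA ≤ e →
      (∀ v, dg G v ≤ m + 8 * e) → 2 ^ e ≤ Fintype.card V →
      D * e ^ 10 ≤ 2 * Fintype.card V → ∀ c : ℝ, 0 < c → Rat G (2 ^ e) (c * (1 + 2 / (e : ℝ))) →
      (∃ cy, Cyc G cy ∧ c * (Fintype.card V : ℝ) ≤ cy.length) ∨
      Rat G (2 ^ (e + 1)) (c * (1 + 2 / ((e + 1 : ℕ) : ℝ))) := by
  obtain ⟨eG, heG⟩ := hGrowth (m + 9) (2 ^ 55 * (m + 9) ^ 3)
  refine ⟨max (max 4 eG) (200000 * (2 ^ 55 * (m + 9) ^ 3 * 2 ^ 9)), ?_⟩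
  intro V _ G hG D hD e he hd hbig hDe c hc hR
  have he4 : 4 ≤ e := ((le_max_left _ _).trans (le_max_left _ _)).trans he
  have heG1 : eG ≤ e := ((le_max_right _ _).trans (le_max_left _ _)).trans he
  have heB : 200000 * (2 ^ 55 * (m + 9) ^ 3 * 2 ^ 9) ≤ e := (le_max_right _ _).trans he
  have hne : Nonempty V := hG.conn.nonempty
  have hn : 0 < Fintype.card V := Fintype.card_pos
  have hnR : (0 : ℝ) < Fintype.card V := by exact_mod_cast hn
  have hA : m + 8 * e + 1 ≤ (m + 9) * (e + 1) := by nlinarith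
  have hx : 0 < c * (1 + 2 / (e : ℝ)) := by positivity
  have hxc : c ≤ c * (1 + 2 / (e : ℝ)) := by
    have : (0 : ℝ) ≤ 2 / (e : ℝ) := by positivity
    nlinarith
  have use_r : ∀ r, bn G r < 2 ^ e → 2 ^ 55 * (m + 9) ^ 3 * (e + 1) ^ 9 * (r + 1) ≤ bn G r →
      (∃ cy, Cyc G cy ∧ c * (Fintype.card V : ℝ) ≤ cy.length) ∨
      Rat G (2 ^ (e + 1)) (c * (1 + 2 / ((e + 1 : ℕ) : ℝ))) := by
    intro r hr1 hr2
    have h1 : 2 ^ 55 * (m + 8 * e + 1) ^ 3 * (e ^ 2) ^ 3 * (r + 1) ≤ bn G r := by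
      refine le_trans ?_ hr2
      have h3 : (e ^ 2) ^ 3 ≤ (e + 1) ^ 6 := by
        rw [← pow_mul]
        exact Nat.pow_le_pow_left (by omega) 6
      calc 2 ^ 55 * (m + 8 * e + 1) ^ 3 * (e ^ 2) ^ 3 * (r + 1)
          ≤ 2 ^ 55 * ((m + 9) * (e + 1)) ^ 3 * (e + 1) ^ 6 * (r + 1) := by gcongr
        _ = 2 ^ 55 * (m + 9) ^ 3 * (e + 1) ^ 9 * (r + 1) := by ring
    have hK : 2 ≤ e ^ 2 := by nlinarith
    obtain ⟨hN, _⟩ := hNext V G hG (m + 8 * e) (2 ^ e) (e ^ 2) r hd hK hr1 h1 _ hx hR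
    rcases hN with ⟨cy, hcy, hlen⟩ | hR'
    · left
      exact ⟨cy, hcy, le_trans (mul_le_mul_of_nonneg_right hxc hnR.le) hlen⟩
    · right
      have h2 := loss_step e he4 c hc.le
      have h3 : Rat G (2 * 2 ^ e) (c * (1 + 2 / ((e + 1 : ℕ) : ℝ))) := rat_mono hR' h2
      rw [pow_succ, mul_comm]
      exact h3
  by_cases hlin : ∀ i, 30 * 31 ^ i ≤ D → bn G ((31 ^ i - 1) / 2) < 2 ^ e →
      32 * bn G ((31 ^ i - 1) / 2) ≤ bn G ((31 ^ (i + 1) - 1) / 2)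
  · obtain ⟨r, hr1, hr2⟩ := heG e heG1 V G hG D hD (m + 8 * e) hd hA hbig hlin
    exact use_r r hr1 hr2
  · push Not at hlin
    obtain ⟨i, hi1, hi2, hi3⟩ := hlin
    rw [succ_scale] at hi3
    have h1 := hLing V G hG D hD ((31 ^ i - 1) / 2) (31 ^ i) (odd_pow i) hi3 hi1
    apply use_r _ hi2
    -- numerics
    set b := bn G ((31 ^ i - 1) / 2) with hb
    have h2 : 31 ^ i * e ^ 10 ≤ 200000 * b := by
      have h3 : (31 ^ i * e ^ 10) * Fintype.card V ≤ (200000 * b) * Fintype.card V := by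
        calc (31 ^ i * e ^ 10) * Fintype.card V = (31 ^ i * Fintype.card V) * e ^ 10 := by ring
          _ ≤ (100000 * D * b) * e ^ 10 := Nat.mul_le_mul_right _ h1
          _ = (100000 * b) * (D * e ^ 10) := by ring
          _ ≤ (100000 * b) * (2 * Fintype.card V) := Nat.mul_le_mul_left _ hDe
          _ = (200000 * b) * Fintype.card V := by ring
      exact Nat.le_of_mul_le_mul_right h3 hn
    have h4 : (e + 1) ^ 9 ≤ 2 ^ 9 * e ^ 9 := by
      rw [← mul_pow]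
      exact Nat.pow_le_pow_left (by omega) 9
    have h5 : (31 ^ i - 1) / 2 + 1 ≤ 31 ^ i := by
      have := odd_pow i
      omega
    have h6 : 200000 * (2 ^ 55 * (m + 9) ^ 3 * (e + 1) ^ 9 * ((31 ^ i - 1) / 2 + 1)) ≤ 200000 * b := by
      refine le_trans ?_ h2
      calc 200000 * (2 ^ 55 * (m + 9) ^ 3 * (e + 1) ^ 9 * ((31 ^ i - 1) / 2 + 1))
          ≤ 200000 * (2 ^ 55 * (m + 9) ^ 3 * (2 ^ 9 * e ^ 9) * 31 ^ i) := by gcongr
        _ = 200000 * (2 ^ 55 * (m + 9) ^ 3 * 2 ^ 9) * (e ^ 9 * 31 ^ i) := by ring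
        _ ≤ e * (e ^ 9 * 31 ^ i) := Nat.mul_le_mul_right _ heB
        _ = 31 ^ i * e ^ 10 := by ring
    exact Nat.le_of_mul_le_mul_left h6 (by norm_num)

/-- a family of disjoint cycles -/
theorem family_cf {V : Type u} [Fintype V] {G : SimpleGraph V} (F : Finset (List V))
    (hF : ∀ c ∈ F, Cyc G c) (hPD : PD F) :
    ∃ H, CF G H ∧ (∀ v, v ∈ cov H ↔ ∃ c ∈ F, v ∈ c) ∧ (cov H).card = ∑ c ∈ F, c.length ∧ ncyc H ≤ F.card := by
  induction F using Finset.induction_on with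
  | empty =>
    refine ⟨⊥, H15.bot_cf, ?_, ?_, ?_⟩
    · intro v
      simp [H15.mem_cov]
    · have : cov (⊥ : SimpleGraph V) = ∅ := by
        ext v; simp [H15.mem_cov]
      rw [this]; simp
    · unfold ncyc cycs
      have : cov (⊥ : SimpleGraph V) = ∅ := by
        ext v; simp [H15.mem_cov]
      rw [this]; simp
  | insert q F hq ih =>
    obtain ⟨H, hH, h1, h2, h3⟩ := ih (fun c hc => hF c (Finset.mem_insert_of_mem hc))
      (fun l hl l' hl' hne => hPD l (Finset.mem_insert_of_mem hl) l' (Finset.mem_insert_of_mem hl') hne)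
    have hcq := hF q (Finset.mem_insert_self q F)
    have hd : ∀ v ∈ q, v ∉ cov H := by
      intro v hv hv'
      obtain ⟨c, hc, hvc⟩ := (h1 v).1 hv'
      have hne : q ≠ c := by
        rintro rfl
        exact hq hc
      exact hPD q (Finset.mem_insert_self _ _) c (Finset.mem_insert_of_mem hc) hne hv hvc
    refine ⟨H15.addC H q hcq.1.2.2 hcq.2.1, H15.addC_cf hH hcq hd, ?_, ?_, ?_⟩
    · intro v
      rw [H15.addC_cov, Finset.mem_union, List.mem_toFinset, h1 v]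
      constructor
      · rintro (⟨c, hc, hvc⟩ | h)
        · exact ⟨c, Finset.mem_insert_of_mem hc, hvc⟩
        · exact ⟨q, Finset.mem_insert_self _ _, h⟩
      · rintro ⟨c, hc, hvc⟩
        rcases Finset.mem_insert.1 hc with rfl | hc
        · exact Or.inr hvc
        · exact Or.inl ⟨c, hc, hvc⟩
    · rw [H15.addC_cov, Finset.card_union_of_disjoint, h2, Finset.sum_insert hq,
        List.toFinset_card_of_nodup hcq.1.2.2, Nat.add_comm]
      rw [Finset.disjoint_left]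
      intro v hv hv'
      exact hd v (List.mem_toFinset.1 hv') hv
    · refine (H15.addC_ncyc _ _ hd).trans ?_
      rw [Finset.card_insert_of_notMem hq]
      omega

end Pool.Agent.Lib.MP_688fd0_co.LIN.H18
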