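import Pool.Agent.Lib.MP_688fd0_co.LIN.H18.Step2

/-!
Theorem 2.
-/

set_option autoImplicit false

namespace Pool.Agent.Lib.MP_688fd0_co.LIN.H18

open Classical
open Pool.Agent.Lib.MP_688fd0_co.LP (IsP Conn Cyc Symm cay)

universe u

/-- Theorem 2 with families of cycles -/
def Main2fStatement : Prop := ∀ (ε : ℝ), 0 < ε → ε < 1 → ∀ m : ℕ, ∃ C : ℕ, ∀ (Γ : Type u) [Group Γ] [Fintype Γ]
  (A A0 : Finset Γ), Symm A → Symm A0 → A0 ⊆ A → A0.card ≤ m → Subgroup.closure (A : Set Γ) = ⊤ →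
  (∃ F : Finset (List Γ), (∀ c ∈ F, Cyc (cay A0) c ∧ C ≤ c.length ∧
      ∀ v ∈ c, v ∈ Subgroup.closure (A0 : Set Γ)) ∧ PD F ∧
    (1 - ε) * (Nat.card (Subgroup.closure (A0 : Set Γ)) : ℝ) ≤ ∑ c ∈ F, (c.length : ℝ)) →
  (∀ D, Diam (cay A) D → (D : ℝ) * (Real.logb 2 (Fintype.card Γ)) ^ 11 ≤ Fintype.card Γ) →
  ∃ c : List Γ, Cyc (cay A) c ∧ (1 - 2 * ε) * (Fintype.card Γ : ℝ) ≤ c.length

theorem cyc_mono_graph {V : Type u} {G G' : SimpleGraph V} (h : G ≤ G') {c : List V} (hc : Cyc G c) : Cyc G' c := by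
  obtain ⟨⟨h1, h2, h3⟩, h4, a, b, ha, hb, hab⟩ := hc
  exact ⟨⟨h1, h2.imp (fun _ _ hxy => h hxy), h3⟩, h4, a, b, ha, hb, h hab⟩

theorem cay_mono {Γ : Type u} [Group Γ] {T A : Finset Γ} (hT : Symm T) (hA : Symm A) (hTA : T ⊆ A) :
    cay T ≤ cay A := by
  intro x y hxy
  rw [Pool.Agent.Lib.MP_688fd0_co.LP.cay_adj hT] at hxy
  rw [Pool.Agent.Lib.MP_688fd0_co.LP.cay_adj hA]
  exact ⟨hxy.1, hTA hxy.2⟩

theorem exists_diam' {V : Type u} [Fintype V] [Nonempty V] (G : SimpleGraph V) : ∃ D, Diam G D := by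
  obtain ⟨p, _, hp⟩ := Finset.exists_max_image (Finset.univ : Finset (V × V)) (fun p => G.dist p.1 p.2)
    Finset.univ_nonempty
  exact ⟨G.dist p.1 p.2, fun x y => hp (x, y) (Finset.mem_univ _), p.1, p.2, rfl⟩

theorem cay_connected {Γ : Type u} [Group Γ] {A : Finset Γ} (hA : Symm A)
    (hAtop : Subgroup.closure (A : Set Γ) = ⊤) : (cay A).Connected := by
  have h1 : ∀ g : Γ, ∀ x : Γ, (cay A).Reachable x (x * g) := by
    intro g
    have hg : g ∈ Subgroup.closure (A : Set Γ) := by rw [hAtop]; trivial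
    induction hg using Subgroup.closure_induction with
    | mem a ha =>
      intro x
      by_cases h : x = x * a
      · rw [← h]
      · exact SimpleGraph.Adj.reachable ((Pool.Agent.Lib.MP_688fd0_co.LP.cay_adj hA).2
          ⟨h, by simpa using ha⟩)
    | one => intro x; rw [mul_one]
    | mul a b _ _ iha ihb =>
      intro x
      rw [← mul_assoc]
      exact (iha x).trans (ihb _)
    | inv a _ iha =>
      intro x
      have := iha (x * a⁻¹)
      rw [inv_mul_cancel_right] at this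
      exact this.symm
  have : Nonempty Γ := ⟨1⟩
  refine SimpleGraph.Connected.mk ?_
  intro x y
  have := h1 (x⁻¹ * y) x
  rwa [mul_inv_cancel_left] at this

theorem start_family {Γ : Type u} [Group Γ] [Fintype Γ] {A0 : Finset Γ} (F : Finset (List Γ)) (C l : ℕ) (ε : ℝ)
    (hF : ∀ c ∈ F, Cyc (cay A0) c ∧ C ≤ c.length ∧ ∀ v ∈ c, v ∈ Subgroup.closure (A0 : Set Γ)) (hPD : PD F)
    (hsum : (1 - ε) * (Nat.card (Subgroup.closure (A0 : Set Γ)) : ℝ) ≤ ∑ c ∈ F, (c.length : ℝ))
    (hC : (l : ℝ) ≤ ε / 4 * C) (hC0 : 0 < C) (hε : 0 < ε) : Rat (lv A0) l (1 - 5 * ε / 4) := by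
  have hg : ∀ c ∈ F, ∃ c' : List ↥(Subgroup.closure (A0 : Set Γ)), c'.map Subtype.val = c := by
    intro c hc
    have h1 := (hF c hc).2.2
    lift c to List ↥(Subgroup.closure (A0 : Set Γ)) using h1
    exact ⟨c, rfl⟩
  choose! g hg using hg
  have hlen : ∀ c ∈ F, (g c).length = c.length := by
    intro c hc
    conv_rhs => rw [← hg c hc]
    rw [List.length_map]
  have hmem : ∀ c ∈ F, ∀ v, v ∈ g c → (v : Γ) ∈ c := by
    intro c hc v hv
    rw [← hg c hc]
    exact List.mem_map_of_mem hv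
  have hinj : Set.InjOn g (F : Set (List Γ)) := by
    intro c hc c' hc' h
    rw [← hg c hc, ← hg c' hc', h]
  obtain ⟨H, hH, h1, h2, h3⟩ := family_cf (G := lv A0) (F.image g) (by
    intro c hc
    obtain ⟨c, hc', rfl⟩ := Finset.mem_image.1 hc
    obtain ⟨⟨h1, h2, h3⟩, h4, a, b, ha, hb, hab⟩ := (hF c hc').1
    rw [← hg c hc'] at h1 h2 h3 h4 ha hb
    rw [List.head?_map] at ha
    rw [List.getLast?_map] at hb
    obtain ⟨a', ha', rfl⟩ := Option.map_eq_some_iff.1 ha
    obtain ⟨b', hb', rfl⟩ := Option.map_eq_some_iff.1 hb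
    refine ⟨⟨fun h => h1 (by rw [h]; rfl), ?_, List.Nodup.of_map _ h3⟩, by rwa [List.length_map] at h4,
      a', b', ha', hb', hab⟩
    rw [List.isChain_map] at h2
    exact h2) (by
    intro l hl l' hl' hne
    obtain ⟨c, hc, rfl⟩ := Finset.mem_image.1 hl
    obtain ⟨c', hc', rfl⟩ := Finset.mem_image.1 hl'
    have hne' : c ≠ c' := by
      rintro rfl; exact hne rfl
    intro v hv hv'
    exact hPD c hc c' hc' hne' (hmem c hc v hv) (hmem c' hc' v hv'))
  have h4 : (cov H).card = ∑ c ∈ F, c.length := by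
    rw [h2, Finset.sum_image hinj]
    exact Finset.sum_congr rfl (fun c hc => hlen c hc)
  have h5 : ncyc H ≤ F.card := h3.trans Finset.card_image_le
  have h6 : F.card * C ≤ (cov H).card := by
    rw [h4, ← smul_eq_mul, ← Finset.sum_const]
    exact Finset.sum_le_sum (fun c hc => (hF c hc).2.1)
  have h7 : (cov H).card ≤ Fintype.card ↥(Subgroup.closure (A0 : Set Γ)) := Finset.card_le_univ _
  refine ⟨H, hH, ?_⟩
  have h8 : ((phi l H : ℤ) : ℝ) = ((cov H).card : ℝ) - l * ncyc H := by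
    unfold phi; push_cast; ring
  rw [h8]
  have h9 : ((cov H).card : ℝ) = ∑ c ∈ F, (c.length : ℝ) := by rw [h4]; push_cast; rfl
  rw [Nat.card_eq_fintype_card] at hsum
  rw [← h9] at hsum
  have h10 : (F.card : ℝ) * C ≤ Fintype.card ↥(Subgroup.closure (A0 : Set Γ)) := by exact_mod_cast h6.trans h7
  have h11 : (l : ℝ) * ncyc H ≤ ε / 4 * (Fintype.card ↥(Subgroup.closure (A0 : Set Γ)) : ℝ) := by
    have h12 : (ncyc H : ℝ) ≤ F.card := by exact_mod_cast h5
    have h13 : (0 : ℝ) ≤ ncyc H := by positivity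
    calc (l : ℝ) * ncyc H ≤ (ε / 4 * C) * F.card := by gcongr
      _ = ε / 4 * (F.card * C) := by ring
      _ ≤ _ := by gcongr
  linarith

theorem main2f (hNext : NextStatement.{u}) (hOpt : OptStatement.{u}) (hBase : BaseStatement.{u})
    (hLing : LingStatement.{u}) (hLevel : LevelStatement.{u}) (hLift : LiftStatement.{u})
    (hGrowth : GrowthStatement.{u}) : Main2fStatement.{u} := by
  intro ε hε hε1 m
  obtain ⟨eA, hA'⟩ := step_ball hNext hBase m
  obtain ⟨eB, hB'⟩ := step_diam hNext hGrowth hLing m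
  obtain ⟨e2, he2⟩ := poly_le_two_pow 4 2
  obtain ⟨e3, he3⟩ := exists_nat_ge (8 / ε)
  set e0 := max (max eA eB) (max (max e2 e3) 4) with he0
  have h0A : eA ≤ e0 := (le_max_left _ _).trans (le_max_left _ _)
  have h0B : eB ≤ e0 := (le_max_right _ _).trans (le_max_left _ _)
  have h02 : e2 ≤ e0 := ((le_max_left _ _).trans (le_max_left _ _)).trans (le_max_right _ _)
  have h03 : e3 ≤ e0 := ((le_max_right _ _).trans (le_max_left _ _)).trans (le_max_right _ _)
  have h04 : 4 ≤ e0 := (le_max_right _ _).trans (le_max_right _ _)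
  clear_value e0
  obtain ⟨C, hC⟩ := exists_nat_ge (4 * 2 ^ e0 / ε)
  have hC0 : 0 < C := by
    have h1 : (0 : ℝ) < 4 * 2 ^ e0 / ε := by positivity
    exact_mod_cast h1.trans_le hC
  refine ⟨C, ?_⟩
  intro Γ _ _ A A0 hA hA0 hsub hm hAtop hfam hdiam
  obtain ⟨F, hF, hPD, hsum⟩ := hfam
  by_cases hhalf : 1 / 2 ≤ ε
  · -- trivial case
    have hne : F.Nonempty := by
      rw [Finset.nonempty_iff_ne_empty]
      rintro rfl
      rw [Finset.sum_empty] at hsum
      have h1 : 0 < Nat.card (Subgroup.closure (A0 : Set Γ)) := Nat.card_pos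
      have h2 : (0 : ℝ) < Nat.card (Subgroup.closure (A0 : Set Γ)) := by exact_mod_cast h1
      nlinarith
    obtain ⟨c, hc⟩ := hne
    refine ⟨c, cyc_mono_graph (cay_mono hA0 hA hsub) (hF c hc).1, ?_⟩
    have h1 : (0 : ℝ) ≤ c.length := by positivity
    have h2 : (0 : ℝ) ≤ Fintype.card Γ := by positivity
    nlinarith
  push Not at hhalf
  have he0R : (0 : ℝ) < e0 := by
    have : 0 < e0 := by omega
    exact_mod_cast this
  set c : ℝ := (1 - 5 * ε / 4) / (1 + 2 / (e0 : ℝ)) with hcdef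
  have hpos1 : (0 : ℝ) < 1 + 2 / (e0 : ℝ) := by positivity
  have h2e0 : 2 / (e0 : ℝ) ≤ ε / 4 := by
    have h1 : 8 / ε ≤ e0 := he3.trans (by exact_mod_cast h03)
    rw [div_le_iff₀ hε] at h1
    rw [div_le_iff₀ he0R]
    nlinarith
  have h2e0' : 2 / (e0 : ℝ) ≤ 1 / 2 := by linarith
  have hc14 : 1 / 4 ≤ c := by
    rw [hcdef, le_div_iff₀ hpos1]
    nlinarith
  have hc : 0 < c := by linarith
  have hc2 : 1 - 2 * ε ≤ c := by
    rw [hcdef, le_div_iff₀ hpos1]
    nlinarith
  have hcc : c * (1 + 2 / (e0 : ℝ)) = 1 - 5 * ε / 4 := by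
    rw [hcdef]; field_simp
  have hce : ∀ e, e0 ≤ e → (e : ℝ) ^ 2 ≤ c * 2 ^ e := by
    intro e he
    have h1 := he2 e (h02.trans he)
    have h2 : (4 : ℝ) * (e + 1) ^ 2 ≤ 2 ^ e := by exact_mod_cast h1
    have h3 : (0 : ℝ) ≤ e := by positivity
    have h4 : (0 : ℝ) < 2 ^ e := by positivity
    nlinarith
  have hstart : Rat (lv A0) (2 ^ e0) (c * (1 + 2 / (e0 : ℝ))) := by
    rw [hcc]
    refine start_family F C (2 ^ e0) ε hF hPD hsum ?_ hC0 hε
    rw [div_le_iff₀ hε] at hC
    push_cast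
    nlinarith
  -- the chain
  have hAne : A.Nonempty := ⟨1, hA.one⟩
  obtain ⟨a, ha⟩ := greedy_chain A A0 hAne
  have hNe : Nonempty Γ := ⟨1⟩
  obtain ⟨D, hD⟩ := exists_diam' (cay A)
  have hDn := hdiam D hD
  have hsubk : ∀ k, chT A0 a k ⊆ A := fun k => chT_subset hA hsub a k (fun i _ => (ha i).1)
  have hnR : (0 : ℝ) < Fintype.card Γ := by
    have : 0 < Fintype.card Γ := Fintype.card_pos
    exact_mod_cast this
  have main : ∀ t e, e0 ≤ e → Fintype.card Γ - e = t →
      Rat (lv (chT A0 a (4 * e))) (2 ^ e) (c * (1 + 2 / (e : ℝ))) →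
      ∃ cy : List Γ, Cyc (cay A) cy ∧ c * (Fintype.card Γ : ℝ) ≤ cy.length := by
    intro t
    induction t with
    | zero =>
      intro e he hte hR
      exfalso
      obtain ⟨⟨H, hH⟩, hO⟩ := hOpt _ (lv (chT A0 a (4 * e))) (2 ^ e)
      have h1 := opt_rat hR hH
      have h2 := phi_le_cov (2 ^ e) H
      have h3 : 0 < c * (1 + 2 / (e : ℝ)) * (Fintype.card ↥(Subgroup.closure (chT A0 a (4 * e) : Set Γ)) : ℝ) := by
        have : 0 < Fintype.card ↥(Subgroup.closure (chT A0 a (4 * e) : Set Γ)) := Fintype.card_pos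
        positivity
      have h4 : 0 < ((cov H).card : ℝ) := by linarith
      have h5 : 0 < (cov H).card := by exact_mod_cast h4
      obtain ⟨v, hv⟩ := Finset.card_pos.1 h5
      have h6 := ((hO H hH).1 v hv).1
      have h7 : (cyc H v).card ≤ Fintype.card ↥(Subgroup.closure (chT A0 a (4 * e) : Set Γ)) :=
        Finset.card_le_univ _
      have h8 : Fintype.card ↥(Subgroup.closure (chT A0 a (4 * e) : Set Γ)) ≤ Fintype.card Γ :=
        Fintype.card_le_of_injective _ Subtype.val_injective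
      have h9 : e < 2 ^ e := Nat.lt_two_pow_self
      omega
    | succ t ih =>
      intro e he hte hR
      obtain ⟨hsy, hVT, hdeg⟩ := hLevel Γ A0 a hA0 (4 * e)
      obtain ⟨hsy', _, _⟩ := hLevel Γ A0 a hA0 (4 * (e + 1))
      have hd : ∀ v, dg (lv (chT A0 a (4 * e))) v ≤ m + 8 * e := by
        intro v
        have := hdeg v
        omega
      have hnext : Rat (lv (chT A0 a (4 * e))) (2 ^ (e + 1)) (c * (1 + 2 / ((e + 1 : ℕ) : ℝ))) →
          ∃ cy : List Γ, Cyc (cay A) cy ∧ c * (Fintype.card Γ : ℝ) ≤ cy.length := by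
        intro h
        exact ih (e + 1) (by omega) (by omega)
          (hLift Γ _ _ hsy hsy' (chT_mono A0 a (by omega)) _ _ h)
      by_cases hg : ∀ i < 4 * e, ¬ WB (chT A0 a i) (2 * e - 1) (a i)
      · -- large ball
        have h1 := ball4g hA0 a e hg
        exact hnext (hA' _ _ hVT e (h0A.trans he) hd h1 c hc (hce e he) hR)
      · -- small diameter
        push Not at hg
        obtain ⟨i, hi, hwb⟩ := hg
        obtain ⟨htop, hdist⟩ := diam_g hA hAtop hA0 a ha D hD (cay_connected hA hAtop) i (4 * e) (2 * e - 1)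
          hi.le hwb
        have hcard : Fintype.card ↥(Subgroup.closure (chT A0 a (4 * e) : Set Γ)) = Fintype.card Γ := by
          rw [← Nat.card_eq_fintype_card, ← Nat.card_eq_fintype_card, htop, Subgroup.card_top]
        by_cases hbig : Fintype.card Γ < 2 ^ e
        · exfalso
          obtain ⟨⟨H, hH⟩, hO⟩ := hOpt _ (lv (chT A0 a (4 * e))) (2 ^ e)
          have h1 := opt_rat hR hH
          have h2 := phi_le_cov (2 ^ e) H
          have h3 : 0 < c * (1 + 2 / (e : ℝ)) *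
              (Fintype.card ↥(Subgroup.closure (chT A0 a (4 * e) : Set Γ)) : ℝ) := by
            have : 0 < Fintype.card ↥(Subgroup.closure (chT A0 a (4 * e) : Set Γ)) := Fintype.card_pos
            positivity
          have h4 : 0 < ((cov H).card : ℝ) := by linarith
          have h5 : 0 < (cov H).card := by exact_mod_cast h4
          obtain ⟨v, hv⟩ := Finset.card_pos.1 h5
          have h6 := ((hO H hH).1 v hv).1
          have h7 : (cyc H v).card ≤ Fintype.card ↥(Subgroup.closure (chT A0 a (4 * e) : Set Γ)) :=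
            Finset.card_le_univ _
          omega
        push Not at hbig
        obtain ⟨_, _, _, _, _, _, D', hD'⟩ := hBase _ (lv (chT A0 a (4 * e))) hVT
        have hDD : D' ≤ (2 * e - 1) * D := by
          obtain ⟨x, y, hxy⟩ := hD'.2
          rw [← hxy]
          exact hdist x y
        have hDe : D' * e ^ 10 ≤ 2 * Fintype.card ↥(Subgroup.closure (chT A0 a (4 * e) : Set Γ)) := by
          rw [hcard]
          have hlog : (e : ℝ) ≤ Real.logb 2 (Fintype.card Γ) := by
            rw [Real.le_logb_iff_rpow_le (by norm_num) hnR, Real.rpow_natCast]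
            exact_mod_cast hbig
          have h1 : (D : ℝ) * (e : ℝ) ^ 11 ≤ Fintype.card Γ := by
            refine le_trans ?_ hDn
            gcongr
          have h2 : D * e ^ 11 ≤ Fintype.card Γ := by exact_mod_cast h1
          calc D' * e ^ 10 ≤ ((2 * e - 1) * D) * e ^ 10 := Nat.mul_le_mul_right _ hDD
            _ ≤ (2 * e * D) * e ^ 10 := by
                apply Nat.mul_le_mul_right
                apply Nat.mul_le_mul_right
                omega
            _ = 2 * (D * e ^ 11) := by ring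
            _ ≤ _ := Nat.mul_le_mul_left _ h2
        rcases hB' _ _ hVT D' hD' e (h0B.trans he) hd (by rw [hcard]; exact hbig) hDe c hc hR with ⟨cy, hcy, hl⟩ | h
        · refine ⟨_, cyc_map hsy hA (hsubk _) hcy, ?_⟩
          rw [List.length_map]
          rw [hcard] at hl
          exact hl
        · exact hnext h
  obtain ⟨hsy4, _, _⟩ := hLevel Γ A0 a hA0 (4 * e0)
  obtain ⟨cy, hcy, hl⟩ := main _ e0 le_rfl rfl
    (hLift Γ A0 _ hA0 hsy4 (chT_mono A0 a (Nat.zero_le _)) _ _ hstart)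
  refine ⟨cy, hcy, le_trans ?_ hl⟩
  exact mul_le_mul_of_nonneg_right hc2 hnR.le

end Pool.Agent.Lib.MP_688fd0_co.LIN.H18
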