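import Pool.Agent.Lib.MP_688fd0_co.LIN.H18.Num

set_option autoImplicit false

namespace Pool.Agent.Lib.MP_688fd0_co.LIN.H18

open Classical
open Pool.Agent.Lib.MP_688fd0_co.LP (IsP Conn Cyc Symm cay)

universe u

theorem rat_mono {V : Type u} [Fintype V] {G : SimpleGraph V} {l : ℕ} {x y : ℝ} (h : Rat G l x) (hyx : y ≤ x) :
    Rat G l y := by
  obtain ⟨H, hH, h1⟩ := h
  refine ⟨H, hH, le_trans ?_ h1⟩
  exact mul_le_mul_of_nonneg_right hyx (by positivity)

theorem odd_pow (i : ℕ) : 31 ^ i = 2 * ((31 ^ i - 1) / 2) + 1 := by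
  have h : ∃ k, 31 ^ i = 2 * k + 1 := by
    induction i with
    | zero => exact ⟨0, rfl⟩
    | succ i ih =>
      obtain ⟨k, hk⟩ := ih
      exact ⟨31 * k + 15, by rw [pow_succ, hk]; ring⟩
  obtain ⟨k, hk⟩ := h
  rw [hk]; omega

theorem succ_scale (i : ℕ) : (31 ^ (i + 1) - 1) / 2 = (31 ^ i - 1) / 2 + 15 * 31 ^ i := by
  have h := odd_pow i
  have h1 := odd_pow (i + 1)
  rw [pow_succ] at h1
  omega

theorem scale_mono {i j : ℕ} (h : i ≤ j) : (31 ^ i - 1) / 2 ≤ (31 ^ j - 1) / 2 := by
  apply Nat.div_le_div_right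
  have : 31 ^ i ≤ 31 ^ j := Nat.pow_le_pow_right (by norm_num) h
  omega

/-- an optimal family inherits the ratio -/
theorem opt_rat {V : Type u} [Fintype V] {G : SimpleGraph V} {l : ℕ} {x : ℝ} (h : Rat G l x) {H : SimpleGraph V}
    (hH : Opt G l H) : x * (Fintype.card V : ℝ) ≤ ((phi l H : ℤ) : ℝ) := by
  obtain ⟨H', hH', h1⟩ := h
  refine h1.trans ?_
  exact_mod_cast hH.2 H' hH'

theorem phi_le_cov {V : Type u} [Fintype V] (l : ℕ) (H : SimpleGraph V) :
    ((phi l H : ℤ) : ℝ) ≤ ((cov H).card : ℝ) := by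
  have : phi l H ≤ ((cov H).card : ℤ) := by
    unfold phi
    have : (0 : ℤ) ≤ (l : ℤ) * ncyc H := by positivity
    omega
  exact_mod_cast this

theorem phaseB (hNext : NextStatement.{u}) (hEnd : EndStatement.{u}) (hOpt : OptStatement.{u})
    (hBase : BaseStatement.{u}) (hGrowth : GrowthStatement.{u}) (hGrowth2 : Growth2Statement) (A : ℕ) :
    ∃ eB CB : ℕ, ∀ (V : Type u) [Fintype V] (G : SimpleGraph V), VT G → ∀ D, Diam G D → ∀ d, (∀ v, dg G v ≤ d) →
      ∀ e1, eB ≤ e1 → d + 1 ≤ A * (e1 + 1) → ∀ c : ℝ, 0 < c → Rat G (2 ^ e1) (c * (1 + 2 / (e1 : ℝ))) →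
      ∃ P, IsP G P ∧ c * (Fintype.card V : ℝ) ≤ CB * P.length := by
  obtain ⟨CE, hCE⟩ := hEnd
  obtain ⟨eG, heG⟩ := hGrowth A (2 ^ 55 * A ^ 3)
  obtain ⟨eH, heH⟩ := hGrowth2 (2 ^ 55 * A ^ 3) CE
  refine ⟨max 4 (max eG eH), CE + 1, ?_⟩
  intro V _ G hG D hD d hd e1 he1 hdA c hc
  have he4 : 4 ≤ e1 := le_trans (le_max_left _ _) he1
  have heG1 : eG ≤ e1 := le_trans ((le_max_left _ _).trans (le_max_right _ _)) he1
  have heH1 : eH ≤ e1 := le_trans ((le_max_right _ _).trans (le_max_right _ _)) he1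
  have hne : Nonempty V := hG.conn.nonempty
  have hn : 0 < Fintype.card V := Fintype.card_pos
  have hnR : (0 : ℝ) < Fintype.card V := by exact_mod_cast hn
  -- main claim
  have main : ∀ t e, e1 ≤ e → Fintype.card V - e = t → Rat G (2 ^ e) (c * (1 + 2 / (e : ℝ))) →
      ∃ P, IsP G P ∧ c * (Fintype.card V : ℝ) ≤ ((CE + 1 : ℕ) : ℝ) * P.length := by
    intro t
    induction t with
    | zero =>
      intro e he hte hR
      exfalso
      obtain ⟨⟨H, hH⟩, hO⟩ := hOpt V G (2 ^ e)
      have h1 := opt_rat hR hH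
      have h2 := phi_le_cov (2 ^ e) H
      have h3 : 0 < c * (1 + 2 / (e : ℝ)) * (Fintype.card V : ℝ) := by positivity
      have h4 : 0 < ((cov H).card : ℝ) := by linarith
      have h5 : 0 < (cov H).card := by exact_mod_cast h4
      obtain ⟨v, hv⟩ := Finset.card_pos.1 h5
      have h6 := ((hO H hH).1 v hv).1
      have h7 : (cyc H v).card ≤ Fintype.card V := Finset.card_le_univ _
      have h8 : e < 2 ^ e := Nat.lt_two_pow_self
      omega
    | succ t ih =>
      intro e he hte hR
      have he0 : 4 ≤ e := he4.trans he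
      have hx : 0 < c * (1 + 2 / (e : ℝ)) := by positivity
      have hxc : c ≤ c * (1 + 2 / (e : ℝ)) := by
        have : (0 : ℝ) ≤ 2 / (e : ℝ) := by positivity
        nlinarith
      by_cases hbig : Fintype.card V < 2 ^ e
      · exfalso
        obtain ⟨⟨H, hH⟩, hO⟩ := hOpt V G (2 ^ e)
        have h1 := opt_rat hR hH
        have h2 := phi_le_cov (2 ^ e) H
        have h3 : 0 < c * (1 + 2 / (e : ℝ)) * (Fintype.card V : ℝ) := by positivity
        have h4 : 0 < ((cov H).card : ℝ) := by linarith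
        have h5 : 0 < (cov H).card := by exact_mod_cast h4
        obtain ⟨v, hv⟩ := Finset.card_pos.1 h5
        have h6 := ((hO H hH).1 v hv).1
        have h7 : (cyc H v).card ≤ Fintype.card V := Finset.card_le_univ _
        omega
      push Not at hbig
      -- using a good radius
      have use_r : ∀ r, bn G r < 2 ^ e → 2 ^ 55 * A ^ 3 * (e + 1) ^ 9 * (r + 1) ≤ bn G r →
          ∃ P, IsP G P ∧ c * (Fintype.card V : ℝ) ≤ ((CE + 1 : ℕ) : ℝ) * P.length := by
        intro r hr1 hr2
        have hA : d + 1 ≤ A * (e + 1) := hdA.trans (Nat.mul_le_mul_left _ (by omega))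
        have h1 : 2 ^ 55 * (d + 1) ^ 3 * (e ^ 2) ^ 3 * (r + 1) ≤ bn G r := by
          refine le_trans ?_ hr2
          have h2 : (d + 1) ^ 3 ≤ (A * (e + 1)) ^ 3 := Nat.pow_le_pow_left hA 3
          have h3 : (e ^ 2) ^ 3 ≤ (e + 1) ^ 6 := by
            rw [← pow_mul]
            exact Nat.pow_le_pow_left (by omega) 6
          calc 2 ^ 55 * (d + 1) ^ 3 * (e ^ 2) ^ 3 * (r + 1)
              ≤ 2 ^ 55 * (A * (e + 1)) ^ 3 * (e + 1) ^ 6 * (r + 1) := by gcongr
            _ = 2 ^ 55 * A ^ 3 * (e + 1) ^ 9 * (r + 1) := by ring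
        have hK : 2 ≤ e ^ 2 := by nlinarith
        obtain ⟨hN, _⟩ := hNext V G hG d (2 ^ e) (e ^ 2) r hd hK hr1 h1 _ hx hR
        rcases hN with ⟨cy, hcy, hlen⟩ | hR'
        · refine ⟨cy, hcy.1, ?_⟩
          have h2 : c * (Fintype.card V : ℝ) ≤ cy.length :=
            le_trans (mul_le_mul_of_nonneg_right hxc hnR.le) hlen
          have h3 : (cy.length : ℝ) ≤ ((CE + 1 : ℕ) : ℝ) * cy.length := by
            have h4 : (0 : ℝ) ≤ cy.length := by positivity
            push_cast
            nlinarith [mul_nonneg (Nat.cast_nonneg CE : (0 : ℝ) ≤ (CE : ℝ)) h4]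
          exact h2.trans h3
        · refine ih (e + 1) (by omega) (by omega) ?_
          have h2 := loss_step e he0 c hc.le
          have h3 : Rat G (2 * 2 ^ e) (c * (1 + 2 / ((e + 1 : ℕ) : ℝ))) := rat_mono hR' h2
          rw [pow_succ, mul_comm]
          exact h3
      by_cases hlin : ∀ i, 30 * 31 ^ i ≤ D → bn G ((31 ^ i - 1) / 2) < 2 ^ e →
          32 * bn G ((31 ^ i - 1) / 2) ≤ bn G ((31 ^ (i + 1) - 1) / 2)
      · obtain ⟨r, hr1, hr2⟩ := heG e (heG1.trans he) V G hG D hD d hd
          (hdA.trans (Nat.mul_le_mul_left _ (by omega))) hbig hlin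
        exact use_r r hr1 hr2
      · push Not at hlin
        have hex : ∃ i, 30 * 31 ^ i ≤ D ∧ bn G ((31 ^ i - 1) / 2) < 2 ^ e ∧
            bn G ((31 ^ (i + 1) - 1) / 2) < 32 * bn G ((31 ^ i - 1) / 2) := hlin
        obtain ⟨hi1, hi2, hi3⟩ := Nat.find_spec hex
        have hmin := fun i (h : i < Nat.find hex) => Nat.find_min hex h
        set i := Nat.find hex with hidef
        obtain ⟨_, _, _, hB0, hBm, _, _⟩ := hBase V G hG
        have hpow : ∀ j, j ≤ i → 32 ^ j ≤ bn G ((31 ^ j - 1) / 2) := by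
          intro j
          induction j with
          | zero => intro _; simp [hB0]
          | succ j ihj =>
            intro hj
            have h1 := ihj (by omega)
            have h2 := hmin j (by omega)
            push Not at h2
            have h3 : 30 * 31 ^ j ≤ D := by
              refine le_trans ?_ hi1
              apply Nat.mul_le_mul_left
              exact Nat.pow_le_pow_right (by norm_num) (by omega)
            have h4 : bn G ((31 ^ j - 1) / 2) < 2 ^ e := lt_of_le_of_lt (hBm _ _ (scale_mono (by omega))) hi2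
            have h5 := h2 h3 h4
            calc 32 ^ (j + 1) = 32 * 32 ^ j := by ring
              _ ≤ 32 * bn G ((31 ^ j - 1) / 2) := by omega
              _ ≤ _ := h5
        have hb := hpow i le_rfl
        by_cases hend : CE * (bn G ((31 ^ i - 1) / 2)) ^ 3 ≤ 2 ^ e * (31 ^ i) ^ 2
        · obtain ⟨⟨H, hH⟩, hO⟩ := hOpt V G (2 ^ e)
          have h1 := opt_rat hR hH
          have h2 := phi_le_cov (2 ^ e) H
          have h3 : 0 < c * (1 + 2 / (e : ℝ)) * (Fintype.card V : ℝ) := by positivity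
          have h4 : 0 < ((cov H).card : ℝ) := by linarith
          have h5 : 1 ≤ (cov H).card := by
            have : 0 < (cov H).card := by exact_mod_cast h4
            omega
          rw [succ_scale] at hi3
          obtain ⟨P, hP, hP2⟩ := hCE V G H hG D hD ((31 ^ i - 1) / 2) (31 ^ i) (2 ^ e) (odd_pow i) hi3 hi1 hH hend h5
          refine ⟨P, hP, ?_⟩
          have h6 : ((cov H).card : ℝ) ≤ (CE : ℝ) * P.length := by exact_mod_cast hP2
          have h7 : (0 : ℝ) ≤ P.length := by positivity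
          have h8 : c * (Fintype.card V : ℝ) ≤ c * (1 + 2 / (e : ℝ)) * (Fintype.card V : ℝ) :=
            mul_le_mul_of_nonneg_right hxc hnR.le
          push_cast
          linarith
        · push Not at hend
          have h1 : 2 ^ e ≤ CE * (bn G ((31 ^ i - 1) / 2)) ^ 3 := by
            refine le_trans ?_ hend.le
            exact Nat.le_mul_of_pos_right _ (by positivity)
          have h2 := heH e (heH1.trans he) i (bn G ((31 ^ i - 1) / 2)) hb h1
          apply use_r _ hi2
          refine le_trans (Nat.mul_le_mul_left _ ?_) h2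
          have := odd_pow i
          omega
  intro hR
  obtain ⟨P, hP, hP2⟩ := main _ e1 le_rfl rfl hR
  exact ⟨P, hP, hP2⟩

end Pool.Agent.Lib.MP_688fd0_co.LIN.H18
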