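import Pool.Agent.Lib.MP_688fd0_co.LIN.Iface

set_option autoImplicit false

namespace Pool.Agent.Lib.MP_688fd0_co.LIN.H18

open Classical
open Pool.Agent.Lib.MP_688fd0_co.LP (IsP Conn Cyc Symm cay)

universe u

theorem poly_le_two_pow (C k : ℕ) : ∃ e0 : ℕ, ∀ e ≥ e0, C * (e + 1) ^ k ≤ 2 ^ e := by
  have h := tendsto_pow_const_div_const_pow_of_one_lt k (r := (2 : ℝ)) (by norm_num)
  have h2 : ∀ᶠ n : ℕ in Filter.atTop, (n : ℝ) ^ k / 2 ^ n < 1 / (2 * (C + 1)) := by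
    apply h.eventually_lt_const
    positivity
  obtain ⟨N, hN⟩ := Filter.eventually_atTop.1 h2
  refine ⟨N, fun e he => ?_⟩
  have h3 := hN (e + 1) (by omega)
  have h4 : (0 : ℝ) < 2 ^ (e + 1) := by positivity
  rw [div_lt_iff₀ h4] at h3
  have h5 : (C : ℝ) * ((e + 1 : ℕ) : ℝ) ^ k ≤ 2 ^ e := by
    have hC : (0 : ℝ) ≤ C := by positivity
    have h6 : (1 : ℝ) / (2 * (C + 1)) * 2 ^ (e + 1) = 2 ^ e / (C + 1) := by
      rw [pow_succ]; field_simp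
    rw [h6] at h3
    rw [lt_div_iff₀ (by positivity)] at h3
    have h7 : (0 : ℝ) ≤ ((e + 1 : ℕ) : ℝ) ^ k := by positivity
    nlinarith
  exact_mod_cast h5

theorem exists_pow_31_32 (C : ℕ) : ∃ i : ℕ, C * 31 ^ i ≤ 32 ^ i := by
  obtain ⟨i, hi⟩ := pow_unbounded_of_one_lt (C : ℝ) (y := (32 / 31 : ℝ)) (by norm_num)
  refine ⟨i, ?_⟩
  rw [div_pow, lt_div_iff₀ (by positivity)] at hi
  have : (C : ℝ) * 31 ^ i ≤ 32 ^ i := hi.le
  exact_mod_cast this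

theorem loss_step (e : ℕ) (he : 4 ≤ e) (c : ℝ) (hc : 0 ≤ c) :
    c * (1 + 2 / ((e + 1 : ℕ) : ℝ)) ≤ c * (1 + 2 / (e : ℝ)) * (1 - 1 / (((e ^ 2 : ℕ) : ℝ) - 1)) := by
  have he' : (4 : ℝ) ≤ e := by exact_mod_cast he
  rw [mul_assoc]
  apply mul_le_mul_of_nonneg_left _ hc
  push_cast
  have h1 : (0 : ℝ) < e := by linarith
  have h2 : (0 : ℝ) < (e : ℝ) ^ 2 - 1 := by nlinarith
  have h3 : (1 : ℝ) + 2 / (e : ℝ) = (e + 2) / e := by field_simp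
  have h4 : (1 : ℝ) + 2 / ((e : ℝ) + 1) = (e + 3) / (e + 1) := by field_simp; ring
  have h5 : (1 : ℝ) - 1 / ((e : ℝ) ^ 2 - 1) = ((e : ℝ) ^ 2 - 2) / ((e : ℝ) ^ 2 - 1) := by
    field_simp; ring
  rw [h3, h4, h5, div_mul_div_comm, div_le_div_iff₀ (by positivity) (by positivity)]
  nlinarith [mul_nonneg h1.le (sub_nonneg.2 he'), mul_self_nonneg ((e : ℝ) ^ 2), sq_nonneg ((e : ℝ))]

end Pool.Agent.Lib.MP_688fd0_co.LIN.H18
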