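import Pool.Agent.Lib.MP_688fd0_co.LIN.H18.PhaseB

set_option autoImplicit false

namespace Pool.Agent.Lib.MP_688fd0_co.LIN.H18

open Classical
open Pool.Agent.Lib.MP_688fd0_co.LP (IsP Conn Cyc Symm cay)

universe u

theorem chT_mono {Γ : Type u} [Group Γ] (A0 : Finset Γ) (a : ℕ → Γ) {i j : ℕ} (h : i ≤ j) :
    chT A0 a i ⊆ chT A0 a j := by
  induction h with
  | refl => exact subset_rfl
  | step _ ih =>
    refine ih.trans ?_
    intro x hx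
    simp only [chT, Finset.mem_insert]
    exact Or.inr (Or.inr hx)

/-- one step of phase A -/
theorem phaseA_step (hNext : NextStatement.{u}) (hBase : BaseStatement.{u}) (hLevel : LevelStatement.{u})
    (hBall4 : Ball4Statement.{u}) (hLift : LiftStatement.{u}) (m : ℕ) :
    ∃ eA : ℕ, ∀ (Γ : Type u) [Group Γ] [Fintype Γ] (A0 : Finset Γ) (a : ℕ → Γ) (k : ℕ), Symm A0 → A0.card ≤ m →
      (∀ i < k, a i ∉ Subgroup.closure (chT A0 a i : Set Γ)) → ∀ e, eA ≤ e → 4 * e ≤ k → ∀ c : ℝ, 0 < c →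
      (e : ℝ) ^ 2 ≤ c * 2 ^ e → Rat (lv (chT A0 a (4 * e))) (2 ^ e) (c * (1 + 2 / (e : ℝ))) →
      ∀ j, 4 * e ≤ j → Rat (lv (chT A0 a j)) (2 ^ (e + 1)) (c * (1 + 2 / ((e + 1 : ℕ) : ℝ))) := by
  obtain ⟨eA, heA⟩ := poly_le_two_pow (2 ^ 55 * (m + 8) ^ 4) 11
  refine ⟨max 4 eA, ?_⟩
  intro Γ _ _ A0 a k hA0 hm ha e he hek c hc hce hR j hj
  have he4 : 4 ≤ e := (le_max_left _ _).trans he
  have heA1 : eA ≤ e := (le_max_right _ _).trans he
  obtain ⟨hsy, hVT, hdeg⟩ := hLevel Γ A0 a hA0 (4 * e)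
  set G := lv (chT A0 a (4 * e)) with hG
  have hball := hBall4 Γ A0 a k hA0 ha e hek (4 * e) le_rfl
  obtain ⟨_, _, hB1, hB0, hBm, hBD, D, hD⟩ := hBase _ G hVT
  have hd : ∀ v, dg G v ≤ m + 8 * e := fun v =>
    le_trans (hdeg v) (by omega : A0.card + 2 * (4 * e) ≤ m + 8 * e)
  -- choose r
  have h2e : 2 ^ e ≤ 4 ^ e := Nat.pow_le_pow_left (by norm_num) e
  have hex : ∃ s, 2 ^ e ≤ bn G s := ⟨e, h2e.trans hball⟩
  have hs := Nat.find_spec hex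
  have hsmin := fun s (h : s < Nat.find hex) => Nat.find_min hex h
  have hs0 : Nat.find hex ≠ 0 := by
    intro h0
    rw [h0, hB0] at hs
    have : 1 < 2 ^ e := Nat.one_lt_two_pow (by omega)
    omega
  have hse : Nat.find hex ≤ e := Nat.find_min' hex (h2e.trans hball)
  obtain ⟨r, hr⟩ := Nat.exists_eq_succ_of_ne_zero hs0
  have hr1 : bn G r < 2 ^ e := by
    have := hsmin r (by omega)
    omega
  rw [hr] at hs
  have hr2 : 2 ^ e ≤ (m + 8 * e + 1) * bn G r := hs.trans (hB1 _ hd r)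
  have hnum : 2 ^ 55 * (m + 8 * e + 1) ^ 3 * (e ^ 2) ^ 3 * (r + 1) ≤ bn G r := by
    have h1 := heA e heA1
    have h2 : (m + 8 * e + 1) * (2 ^ 55 * (m + 8 * e + 1) ^ 3 * (e ^ 2) ^ 3 * (r + 1)) ≤
        (m + 8 * e + 1) * bn G r := by
      refine le_trans ?_ hr2
      refine le_trans ?_ h1
      have h3 : m + 8 * e + 1 ≤ (m + 8) * (e + 1) := by nlinarith
      have h4 : r + 1 ≤ e + 1 := by omega
      calc (m + 8 * e + 1) * (2 ^ 55 * (m + 8 * e + 1) ^ 3 * (e ^ 2) ^ 3 * (r + 1))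
          = 2 ^ 55 * (m + 8 * e + 1) ^ 4 * e ^ 6 * (r + 1) := by ring
        _ ≤ 2 ^ 55 * ((m + 8) * (e + 1)) ^ 4 * (e + 1) ^ 6 * (e + 1) := by
            gcongr
            omega
        _ = 2 ^ 55 * (m + 8) ^ 4 * (e + 1) ^ 11 := by ring
    exact Nat.le_of_mul_le_mul_left h2 (by omega)
  have hx : 0 < c * (1 + 2 / (e : ℝ)) := by positivity
  have hxc : c ≤ c * (1 + 2 / (e : ℝ)) := by
    have : (0 : ℝ) ≤ 2 / (e : ℝ) := by positivity
    nlinarith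
  have hK : 2 ≤ e ^ 2 := by nlinarith
  obtain ⟨_, hN⟩ := hNext _ G hVT (m + 8 * e) (2 ^ e) (e ^ 2) r hd hK hr1 hnum _ hx hR
  have hcardN : 4 ^ e ≤ Fintype.card ↥(Subgroup.closure (chT A0 a (4 * e) : Set Γ)) := by
    refine hball.trans ?_
    rw [← hBD D hD]
    rcases le_total e D with h | h
    · exact hBm _ _ h
    · rw [hBD D hD]
      unfold bn
      apply Finset.sup_le
      intro x _
      exact Finset.card_le_univ _
  have hcardR : (4 : ℝ) ^ e ≤ Fintype.card ↥(Subgroup.closure (chT A0 a (4 * e) : Set Γ)) := by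
    exact_mod_cast hcardN
  have h5 : ((e ^ 2 : ℕ) : ℝ) * ((2 ^ e : ℕ) : ℝ) ≤
      c * (1 + 2 / (e : ℝ)) * (Fintype.card ↥(Subgroup.closure (chT A0 a (4 * e) : Set Γ)) : ℝ) := by
    push_cast
    have h6 : (4 : ℝ) ^ e = 2 ^ e * 2 ^ e := by
      rw [← mul_pow]; norm_num
    calc (e : ℝ) ^ 2 * 2 ^ e ≤ c * 2 ^ e * 2 ^ e := by gcongr
      _ = c * 4 ^ e := by rw [h6]; ring
      _ ≤ c * (1 + 2 / (e : ℝ)) * 4 ^ e := by gcongr
      _ ≤ _ := by gcongr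
  have h6 := hN h5
  have h7 := loss_step e he4 c hc.le
  have h8 : Rat G (2 * 2 ^ e) (c * (1 + 2 / ((e + 1 : ℕ) : ℝ))) := rat_mono h6 h7
  have h9 : Rat G (2 ^ (e + 1)) (c * (1 + 2 / ((e + 1 : ℕ) : ℝ))) := by
    have h10 : 2 ^ (e + 1) = 2 * 2 ^ e := by ring
    rw [h10]; exact h8
  obtain ⟨hsy', _, _⟩ := hLevel Γ A0 a hA0 j
  exact hLift Γ _ _ hsy hsy' (chT_mono A0 a hj) _ _ h9

/-- phase A -/
theorem phaseA (hNext : NextStatement.{u}) (hBase : BaseStatement.{u}) (hLevel : LevelStatement.{u})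
    (hBall4 : Ball4Statement.{u}) (hLift : LiftStatement.{u}) (m : ℕ) :
    ∃ eA : ℕ, ∀ (Γ : Type u) [Group Γ] [Fintype Γ] (A0 : Finset Γ) (a : ℕ → Γ) (k : ℕ), Symm A0 → A0.card ≤ m →
      (∀ i < k, a i ∉ Subgroup.closure (chT A0 a i : Set Γ)) → ∀ e0, eA ≤ e0 → 4 * e0 ≤ k → ∀ c : ℝ, 0 < c →
      (∀ e, e0 ≤ e → (e : ℝ) ^ 2 ≤ c * 2 ^ e) → Rat (lv (chT A0 a (4 * e0))) (2 ^ e0) (c * (1 + 2 / (e0 : ℝ))) →
      Rat (lv (chT A0 a k)) (2 ^ (k / 4)) (c * (1 + 2 / ((k / 4 : ℕ) : ℝ))) := by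
  obtain ⟨eA, heA⟩ := phaseA_step hNext hBase hLevel hBall4 hLift m
  refine ⟨eA, ?_⟩
  intro Γ _ _ A0 a k hA0 hm ha e0 he0 hek c hc hce hR
  have key : ∀ e, e0 ≤ e → 4 * e ≤ k → Rat (lv (chT A0 a (4 * e))) (2 ^ e) (c * (1 + 2 / (e : ℝ))) := by
    intro e he
    induction e, he using Nat.le_induction with
    | base => intro _; exact hR
    | succ e he ih =>
      intro hek'
      have h1 := ih (by omega)
      exact heA Γ A0 a k hA0 hm ha e (he0.trans he) (by omega) c hc (hce e he) h1 (4 * (e + 1)) (by omega)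
  have h1 := key (k / 4) (by omega) (by omega)
  obtain ⟨hsy, _, _⟩ := hLevel Γ A0 a hA0 (4 * (k / 4))
  obtain ⟨hsy', _, _⟩ := hLevel Γ A0 a hA0 k
  exact hLift Γ _ _ hsy hsy' (chT_mono A0 a (by omega)) _ _ h1

end Pool.Agent.Lib.MP_688fd0_co.LIN.H18
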